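import Pool.Agent.H27.Bumps

set_option autoImplicit false

open Filter Topology MeasureTheory Real Pool.Agent.H27.Bumps

namespace Pool.Agent.Results.MP_3ddb5a_an.BigArea

theorem one (a : ℝ) : ∫ x in Set.Icc (a - 1) (a + 1), ((1 + (x - a) ^ 2)⁻¹) ^ 2 = π / 4 + 1 / 2 := by
  rw [integral_Icc_eq_integral_Ioc, ← intervalIntegral.integral_of_le (by linarith),
    intervalIntegral.integral_eq_sub_of_hasDerivAt
      (f := fun x => (x - a) / (2 * (1 + (x - a) ^ 2)) + arctan (x - a) / 2) (fun x _ => ?_)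
      (Continuous.intervalIntegrable (by fun_prop (disch := intros; positivity)) _ _)]
  · simp; ring
  · have h := (hasDerivAt_id' x).sub_const a
    convert! (h.fun_div (((h.fun_pow 2).const_add 1).const_mul 2) (by positivity)).fun_add
      (h.arctan.div_const 2) using 1
    simp; field_simp; ring

theorem result : ∃ u : ℝ × ℝ → ℝ, ContDiff ℝ 2 u ∧ (∀ p, lap u p + exp (2 * u p) ≤ 0) ∧
    Integrable (fun p => exp (2 * u p)) ∧ 4 * π < ∫ p, exp (2 * u p) := by
  refine ⟨v, smooth, super, integ, ?_⟩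
  have hA : ∀ (a : ℝ) (S : Set (ℝ × ℝ)), (a = 10 ^ 6 ∨ a = -10 ^ 6) →
      Set.Icc (a - 1) (a + 1) ×ˢ Set.Icc (0 - 1) (0 + 1) ⊆ S →
      (197 / 100) ^ 2 * ((π / 4 + 1 / 2) * (π / 4 + 1 / 2)) ≤ ∫ p in S, exp (2 * v p) := by
    intro a S ha hS
    refine le_trans ?_ (setIntegral_mono_set integ.integrableOn (.of_forall fun _ => (exp_pos _).le)
      hS.eventuallyLE)
    have h1 := setIntegral_prod_mul (μ := volume) (ν := volume)
      (fun x : ℝ => ((1 + (x - a) ^ 2)⁻¹) ^ 2) (fun x : ℝ => ((1 + (x - 0) ^ 2)⁻¹) ^ 2)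
      (Set.Icc (a - 1) (a + 1)) (Set.Icc (0 - 1) (0 + 1))
    rw [one, one] at h1
    rw [← h1, ← integral_const_mul]
    refine setIntegral_mono_on (ContinuousOn.integrableOn_compact (isCompact_Icc.prod isCompact_Icc)
      (Continuous.continuousOn (by fun_prop (disch := intros; positivity)))) integ.integrableOn
      (measurableSet_Icc.prod measurableSet_Icc) fun p hp => ?_
    obtain ⟨⟨a1, a2⟩, a3, a4⟩ := hp
    rw [two_mul, exp_add, ← sq, ← mul_pow, ← mul_pow]
    refine pow_le_pow_left₀ (by positivity) (le_trans ?_ (near ha (by nlinarith))) 2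
    rw [← mul_inv, ← div_eq_mul_inv]
    refine div_le_div_of_nonneg_left (by norm_num) (by positivity) ?_
    nlinarith [mul_nonneg (sq_nonneg (p.1 - a)) (sq_nonneg p.2)]
  have h1 := hA _ {p | 0 < p.1} (Or.inl rfl) fun p hp => by have := hp.1.1; simp; linarith
  have h2 := hA _ {p | 0 < p.1}ᶜ (Or.inr rfl) fun p hp => by have := hp.1.2; simp; linarith
  rw [← integral_add_compl (s := {p : ℝ × ℝ | 0 < p.1})
    (measurableSet_lt measurable_const measurable_fst)
    integ]
  nlinarith [pi_gt_d2, pi_lt_d2]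

end Pool.Agent.Results.MP_3ddb5a_an.BigArea
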